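import Pool.Agent.Lib.MP_46ffdd_an.Main

/-!
Lee's conjecture for the Frobenius norm: `‖f(|A+B|)‖₂ ≤ √((1+√2)/2) ‖f(|A|)+f(|B|)‖₂` for all
complex matrices `A`, `B` and all concave `f : [0,∞) → [0,∞)`.

Proof.  Let `A uᵢ = aᵢ xᵢ`, `B vⱼ = bⱼ yⱼ`, `(A+B) pₖ = cₖ qₖ` be singular value decompositions.

* Truncation: for every `s > 0`,
  `∑ min(cₖ², s) ≤ ∑ min(aᵢ², s) + ∑ min(bⱼ², s) + 2 ∑_{aᵢ² ≤ s, bⱼ² ≤ s} aᵢ bⱼ Re(⟨xᵢ,yⱼ⟩⟨vⱼ,uᵢ⟩)`.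
  Indeed let `K` be the span of the `uᵢ` with `aᵢ² > s` and the `vⱼ` with `bⱼ² > s`.  In an
  orthonormal basis adapted to `K`, the vectors of `K` contribute at most `s` each to the left side,
  and on the orthogonal complement of `K` the operator `A+B` is the sum of the truncated operators.
* The function `z ↦ f(√z)²` is concave and nondecreasing, so on a finite set of points it is a
  constant plus a nonnegative combination of the functions `z ↦ min(z, s)`.  With `D` the total weight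
  of the `s ≥ aᵢ², bⱼ²` one has `aᵢ² D ≤ f(aᵢ)²` and `bⱼ² D ≤ f(bⱼ)²`, hence
  `aᵢ bⱼ D ≤ f(aᵢ) f(bⱼ)`, and summing the truncation inequality gives
  `∑ f(cₖ)² ≤ ∑ f(aᵢ)² + ∑ f(bⱼ)² + 2 ∑ f(aᵢ) f(bⱼ) |⟨xᵢ,yⱼ⟩| |⟨uᵢ,vⱼ⟩|`.
* The last sum is at most `(√2-1) ∑ f(aᵢ)f(bⱼ)|⟨xᵢ,yⱼ⟩|² + (√2+1) ∑ f(aᵢ)f(bⱼ)|⟨uᵢ,vⱼ⟩|²`, the first
  of these two sums is at most half of `∑ f(aᵢ)² + ∑ f(bⱼ)²`, and
  `‖f(|A|)+f(|B|)‖₂² = ∑ f(aᵢ)² + ∑ f(bⱼ)² + 2 ∑ f(aᵢ)f(bⱼ)|⟨uᵢ,vⱼ⟩|²`.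
-/

set_option autoImplicit false

namespace Pool.Agent.Results.MP_46ffdd_an.ConcaveFrobenius

open Matrix

/-- The absolute value `|X| = (X* X)^{1/2}`. -/
noncomputable def absM {n : ℕ} (X : Matrix (Fin n) (Fin n) ℂ) : Matrix (Fin n) (Fin n) ℂ :=
  cfc Real.sqrt (Xᴴ * X)

/-- The Frobenius norm `‖X‖₂ = (tr X* X)^{1/2}`. -/
noncomputable def frob {n : ℕ} (X : Matrix (Fin n) (Fin n) ℂ) : ℝ :=
  Real.sqrt (trace (Xᴴ * X)).re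

/-- For all complex `n × n` matrices `A`, `B` and every concave `f : [0,∞) → [0,∞)`,
`‖f(|A+B|)‖₂ ≤ √((1+√2)/2) ‖f(|A|)+f(|B|)‖₂`. -/
theorem result (n : ℕ) (A B : Matrix (Fin n) (Fin n) ℂ) (f : ℝ → ℝ)
    (hf : ConcaveOn ℝ (Set.Ici 0) f) (hf0 : ∀ x, 0 ≤ x → 0 ≤ f x) :
    frob (cfc f (absM (A + B))) ≤
      Real.sqrt ((1 + Real.sqrt 2) / 2) * frob (cfc f (absM A) + cfc f (absM B)) := by
  unfold frob absM
  rw [← Real.sqrt_mul (by positivity)]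
  exact Real.sqrt_le_sqrt (Pool.Agent.Lib.MP_46ffdd_an.trace_ineq A B f hf hf0)

end Pool.Agent.Results.MP_46ffdd_an.ConcaveFrobenius
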